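import Pool.Agent.Helper69.CB.TriDefs

/-!
# T-TRI, D1: a common non-root modulo a place
-/

set_option autoImplicit false

namespace Pool.Agent.Helper49.TRI

open NumberField Polynomial Pool.Agent.Helper4.CB Pool.Agent.Helper69.CB

variable {K : Type} [Field K] [NumberField K]

/-- clear the denominators of a polynomial with integral coefficients at `p` -/
theorem exists_clear (p : Pl K) (f : K[X]) (hf : ∀ j, vl p (f.coeff j) ≤ 1) :
    ∃ (s : 𝓞 K) (g : (𝓞 K)[X]), s ∉ p.asIdeal ∧
      g.map (algebraMap (𝓞 K) K) = C (algebraMap (𝓞 K) K s) * f ∧ g.natDegree ≤ f.natDegree := by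
  classical
  have h1 : ∀ j, ∃ (n : 𝓞 K) (d : p.asIdeal.primeCompl),
      f.coeff j * (algebraMap (𝓞 K) K d) = algebraMap (𝓞 K) K n := fun j =>
    IsDedekindDomain.HeightOneSpectrum.exists_primeCompl_mul_eq_of_integer p (f.coeff j) (hf j)
  choose n d hnd using h1
  set s : p.asIdeal.primeCompl := ∏ j ∈ f.support, d j with hs
  set g : (𝓞 K)[X] := ∑ j ∈ f.support,
    monomial j (n j * ((∏ i ∈ f.support.erase j, d i : p.asIdeal.primeCompl) : 𝓞 K)) with hg
  have hmap : g.map (algebraMap (𝓞 K) K) = C (algebraMap (𝓞 K) K (s : 𝓞 K)) * f := by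
    rw [hg, Polynomial.map_sum]
    nth_rewrite 3 [f.as_sum_support]
    rw [Finset.mul_sum]
    apply Finset.sum_congr rfl
    intro j hj
    have e : algebraMap (𝓞 K) K (n j *
        ((∏ i ∈ f.support.erase j, d i : p.asIdeal.primeCompl) : 𝓞 K)) =
        algebraMap (𝓞 K) K (s : 𝓞 K) * f.coeff j := by
      rw [map_mul (algebraMap (𝓞 K) K), ← hnd j, hs, ← Finset.mul_prod_erase f.support d hj,
        Submonoid.coe_mul, map_mul]
      ring
    rw [Polynomial.map_monomial, Polynomial.C_mul_monomial, e]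
  refine ⟨s, g, s.2, hmap, ?_⟩
  have h2 : (g.map (algebraMap (𝓞 K) K)).natDegree = g.natDegree :=
    Polynomial.natDegree_map_eq_of_injective (FaithfulSMul.algebraMap_injective (𝓞 K) K) g
  rw [← h2, hmap]
  exact Polynomial.natDegree_C_mul_le _ _

/-- **D1.** a common non-root modulo `p` -/
theorem exists_nonroot (p : Pl K) {ι : Type} [Fintype ι] (F : ι → K[X])
    (hF : ∀ i, (∀ j, vl p ((F i).coeff j) ≤ 1) ∧ ∃ j, vl p ((F i).coeff j) = 1)
    (hd : ∑ i, (F i).natDegree < nm p) :
    ∃ τ : 𝓞 K, ∀ i, vl p ((F i).eval (τ : K)) = 1 := by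
  classical
  have h1 := fun i => exists_clear p (F i) (hF i).1
  choose s g hs hg hdeg using h1
  have hvs : ∀ i, vl p (algebraMap (𝓞 K) K (s i)) = 1 := fun i =>
    (IsDedekindDomain.HeightOneSpectrum.valuation_eq_one_iff_notMem p).2 (hs i)
  set Q := 𝓞 K ⧸ p.asIdeal with hQ
  have hprime : p.asIdeal.IsPrime := p.isPrime
  have hne : ∀ i, (g i).map (Ideal.Quotient.mk p.asIdeal) ≠ 0 := by
    intro i h0
    obtain ⟨j, hj⟩ := (hF i).2
    have h2 : ((g i).map (Ideal.Quotient.mk p.asIdeal)).coeff j = 0 := by rw [h0, coeff_zero]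
    rw [coeff_map, Ideal.Quotient.eq_zero_iff_mem] at h2
    have h3 : vl p (algebraMap (𝓞 K) K ((g i).coeff j)) = 1 := by
      rw [← coeff_map, hg i, coeff_C_mul, map_mul, hvs i, hj, one_mul]
    exact (IsDedekindDomain.HeightOneSpectrum.valuation_eq_one_iff_notMem p).1 h3 h2
  have hfin : Finite Q := Ideal.finiteQuotientOfFreeOfNeBot p.asIdeal p.ne_bot
  have hprod : (∏ i, (g i).map (Ideal.Quotient.mk p.asIdeal)) ≠ 0 :=
    Finset.prod_ne_zero_iff.2 fun i _ => hne i
  have hlt : ((∏ i, (g i).map (Ideal.Quotient.mk p.asIdeal)).natDegree : Cardinal) <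
      Cardinal.mk Q := by
    have h2 : (∏ i, (g i).map (Ideal.Quotient.mk p.asIdeal)).natDegree < Nat.card Q := by
      calc (∏ i, (g i).map (Ideal.Quotient.mk p.asIdeal)).natDegree
          ≤ ∑ i, ((g i).map (Ideal.Quotient.mk p.asIdeal)).natDegree :=
            Polynomial.natDegree_prod_le _ _
        _ ≤ ∑ i, (F i).natDegree :=
            Finset.sum_le_sum fun i _ => (Polynomial.natDegree_map_le).trans (hdeg i)
        _ < nm p := hd
        _ = Nat.card Q := by
            unfold nm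
            rw [Ideal.absNorm_apply, Submodule.cardQuot_apply]
    rw [← Nat.cast_card (α := Q)]
    exact_mod_cast h2
  obtain ⟨t, ht⟩ := Polynomial.exists_eval_ne_zero_of_natDegree_lt_card _ hprod hlt
  obtain ⟨τ, rfl⟩ := Ideal.Quotient.mk_surjective t
  refine ⟨τ, fun i => ?_⟩
  rw [Polynomial.eval_prod, Finset.prod_ne_zero_iff] at ht
  have h4 := ht i (Finset.mem_univ i)
  rw [eval_map, eval₂_at_apply, Ne, Ideal.Quotient.eq_zero_iff_mem] at h4
  have h5 : vl p (algebraMap (𝓞 K) K ((g i).eval τ)) = 1 :=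
    (IsDedekindDomain.HeightOneSpectrum.valuation_eq_one_iff_notMem p).2 h4
  have h6 : algebraMap (𝓞 K) K ((g i).eval τ) = algebraMap (𝓞 K) K (s i) * (F i).eval (τ : K) := by
    rw [← Polynomial.eval₂_at_apply, ← Polynomial.eval_map, hg i, eval_mul, eval_C]
  rw [h6, map_mul, hvs i, one_mul] at h5
  exact h5

end Pool.Agent.Helper49.TRI
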